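import Pool.Agent.H94.CB.M131
import Pool.Agent.H94.CB.M184
import Pool.Agent.H94.CB.M83
import Pool.Agent.H94.CB.M84

/-!
# LU LimMod: from limit curves to the four properties
-/

set_option autoImplicit false

open Topology Filter MvPolynomial Metric

noncomputable section

namespace Pool.Agent.H4.LU

attribute [-instance] ProperSMul.toContinuousSMul

open Pool.Agent.H17 (PN VanishesAt ZariskiClosedIn HolomorphicInto puncturedDisc vanishesAt_mk_iff)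
open Pool.Agent.H62.FC (Homog)
open Pool.Agent.H17LG.Variety (FunField IsLogGeneralType)
open Pool.Agent.H13.SM (conTan cone)
open Pool.Agent.H13.OT (OrderTwo)
open Pool.Agent.H14.KB (KobayashiHyperbolicModulo)
open Pool.Agent.H62.SA (locVar OnBd)
open Pool.Agent.H7.Bir (GGLOpen mem_of_open)
open Pool.Agent.H36.LB (IsLimitPN LimModPN IsCurveComplement)

variable {M N : ℕ}

/-- If the nonconstant limits of order two are in the zero set of a form, then `U` has the four properties. -/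
theorem ggl_of_limMod {P : Ideal (MvPolynomial (Fin (N + 1)) ℂ)} [hPp : P.IsPrime] (hP : Homog P) {z : Fin 2 → FunField P}
    (hz : IsTranscendenceBasis ℂ z) (hsm : ∀ y : Fin (N + 1) → ℂ, y ≠ 0 → (∀ Q ∈ P, eval y Q = 0) → Module.finrank ℂ (conTan P y) ≤ 3)
    {s : ℕ} {G : Fin s → MvPolynomial (Fin (N + 1)) ℂ}
    (hG : ∀ m, ∃ n, (G m).IsHomogeneous n) (hne : (locVar P G).Nonempty) (hO : IsCurveComplement P G)
    (hgt : IsLogGeneralType (K := FunField P) (k := 2) (OnBd P G)) {R : MvPolynomial (Fin (N + 1)) ℂ} {n : ℕ} (hR : R.IsHomogeneous n) (hRP : R ∉ P)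
    (hlim : LimModPN (locVar P G) {x | x ∈ locVar P G ∧ VanishesAt R x}) :
    ∃ Ξ : Set (PN N), GGLOpen P G Ξ ∧ ∃ (Q : MvPolynomial (Fin (N + 1)) ℂ) (D : ℕ), Q.IsHomogeneous D ∧
      (∃ x ∈ locVar P G, ¬ VanishesAt Q x) ∧ (∀ x, x ∈ Ξ ↔ x ∈ locVar P G ∧ VanishesAt Q x) ∧ KobayashiHyperbolicModulo (locVar P G) Q D := by
  choose d hd using hG
  have hG : ∀ m, ∃ n, (G m).IsHomogeneous n := fun m => ⟨_, hd m⟩
  have hcl : ∀ (Q : MvPolynomial (Fin (N + 1)) ℂ) (D : ℕ), Q.IsHomogeneous D → ZariskiClosedIn (locVar P G) {x | x ∈ locVar P G ∧ VanishesAt Q x} := by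
    intro Q D hQ
    refine ⟨{Q}, fun R hR => ⟨D, by rwa [Set.mem_singleton_iff.1 hR]⟩, ?_⟩
    ext x
    simp
  have hpr : ∀ (Q : MvPolynomial (Fin (N + 1)) ℂ) (D : ℕ), Q.IsHomogeneous D → Q ∉ P → {x | x ∈ locVar P G ∧ VanishesAt Q x} ≠ locVar P G := by
    intro Q D hQ hQP heq'
    apply hQP
    refine mem_of_open hP hG hne hQ fun x hx => ?_
    rw [← heq'] at hx
    exact hx.2
  obtain ⟨Q, D', hQ, ⟨x₀, hx₀, hx₀Q⟩, hQΞ, hkob, hpic⟩ := Pool.Agent.H36.LB.lim_surface hP hz hsm hd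
    (Pool.Agent.H36.LB.openPart_of_curveComplement hP hd hO) hgt (hcl _ _ hR) (hpr _ _ hR hRP) hlim
  have hbrody : ∀ f : ℂ → PN N, HolomorphicInto f Set.univ → (∀ z, f z ∈ locVar P G) → (∃ z w, f z ≠ f w) →
      ∀ z, f z ∈ {x | x ∈ locVar P G ∧ VanishesAt Q x} := fun f hf hfU hfn z =>
    ⟨hfU z, Pool.Agent.H14.KB.brody_of_kobayashi hQ hkob hf hfU hfn z⟩
  refine ⟨{x | x ∈ locVar P G ∧ VanishesAt Q x}, ⟨hcl _ _ hQ, ?_, ?_, ?_, hbrody, ?_⟩, Q, D', hQ, ⟨x₀, hx₀, hx₀Q⟩, fun x => Iff.rfl, hkob⟩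
  · intro heq'
    rw [← heq'] at hx₀
    exact hx₀Q hx₀.2
  · intro w _ hw
    obtain rfl := Pool.Agent.H17EF.two_of_basis ⟨z, hz⟩ hw
    exact hgt
  · rintro f hf hfU ⟨z₁, hz₁, hz₁Q⟩
    exact hpic f hf hfU ⟨z₁, hz₁, fun h => hz₁Q ⟨hfU z₁ hz₁, h⟩⟩
  · intro Q' _ hQ' hPQ' hsub w hw hzw
    exact Pool.Agent.H13.CV.strongly_of_brodyL P hP ⟨z, hz⟩ hG (hcl _ _ hQ) hgt hbrody Q' hQ' hPQ' hsub w hw hzw

end Pool.Agent.H4.LU
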